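import Mathlib

/-!
# A first countable Hausdorff space of countable piecewise weak Lindelof number and large cardinality

The inequality `|X| ≤ 2 ^ (pwL(X) · χ(X))` fails for Hausdorff spaces.

The space is a union of countably many closed discrete pieces. The first piece is an arbitrary
set `D`. To each piece `S` two kinds of new pieces are attached: the set of all functions
`p : S → ℕ`, and, for every `m`, the set of pairs `(x, p)` (`x ∈ S`, `p : S → ℕ`). The pair `(x, p)`
with label `m` belongs to the `k`-th neighbourhood of `x` if `k ≤ m`, and to the `k`-th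
neighbourhood of `p` if `k ≤ m` and `k < p(x)`. Hence `x` is in the closure of the `k`-th
neighbourhood of `p` for `k < p(x)`. If every countably complete ultrafilter on `S` is principal,
finitely many members of any open cover have closures which cover `S`.
-/

set_option autoImplicit false

open Set Filter Topology
open Cardinal hiding univ

universe u

namespace Pool.Agent.Results.MP_8b81fd_gt.HausdorffCounterexample

/-! ### Definitions used in the statement -/

/-- The covering property with bound `κ` in the definition of the piecewise weak Lindelof number: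
for every open cover `⋃ i, U i`, decomposed into the families `U i`, there are subfamilies
`V i ⊆ U i` of cardinality at most `κ` with `X = ⋃ i, closure (⋃₀ V i)`. -/
def PwProp (X : Type u) [TopologicalSpace X] (κ : Cardinal.{u}) : Prop :=
  ∀ (I : Type u) (U : I → Set (Set X)), (∀ i, ∀ O ∈ U i, IsOpen O) → (⋃ i, ⋃₀ U i) = univ →
    ∃ V : I → Set (Set X), (∀ i, V i ⊆ U i) ∧ (∀ i, #(V i) ≤ κ) ∧
      (⋃ i, closure (⋃₀ V i)) = univ

/-- The piecewise weak Lindelof number `pwL(X)` (an infinite cardinal). -/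
noncomputable def pwL (X : Type u) [TopologicalSpace X] : Cardinal.{u} :=
  sInf {κ | ℵ₀ ≤ κ ∧ PwProp X κ}

/-- `B` is a local base at `x`. -/
def IsLocalBase {X : Type u} [TopologicalSpace X] (x : X) (B : Set (Set X)) : Prop :=
  (∀ O ∈ B, IsOpen O ∧ x ∈ O) ∧ ∀ W ∈ 𝓝 x, ∃ O ∈ B, O ⊆ W

/-- The character `χ(x, X)`. -/
noncomputable def charAt (X : Type u) [TopologicalSpace X] (x : X) : Cardinal.{u} :=
  sInf {κ | ∃ B : Set (Set X), IsLocalBase x B ∧ #B = κ}

/-- The character `χ(X)` (an infinite cardinal). -/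
noncomputable def chr (X : Type u) [TopologicalSpace X] : Cardinal.{u} :=
  max ℵ₀ (⨆ x : X, charAt X x)

/-- The ultrafilter `l` is countably complete: every partition of the set into countably many
classes has a class which belongs to `l`. -/
def CountablyComplete {D : Type u} (l : Ultrafilter D) : Prop :=
  ∀ g : D → ℕ, ∃ n, {x | g x = n} ∈ l

/-- Every countably complete ultrafilter on `D` is principal; that is, the cardinality of `D` is
smaller than the first measurable cardinal (if there is one). -/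
def NonMeasurable (D : Type u) : Prop :=
  ∀ l : Ultrafilter D, CountablyComplete l → ∃ d, {d} ∈ l

/-! ### Sets of nonmeasurable cardinality -/

theorem cc_map {D E : Type u} {l : Ultrafilter D} (h : CountablyComplete l) (f : D → E) :
    CountablyComplete (l.map f) := by
  intro g
  obtain ⟨n, hn⟩ := h (g ∘ f)
  exact ⟨n, hn⟩

theorem nm_of_injective {D E : Type u} (f : D → E) (hf : Function.Injective f)
    (hE : NonMeasurable E) : NonMeasurable D := by
  intro l hl
  obtain ⟨e, he⟩ := hE (l.map f) (cc_map hl f)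
  have h1 : f ⁻¹' {e} ∈ l := he
  obtain ⟨d, hd⟩ := l.nonempty_of_mem h1
  refine ⟨d, Filter.mem_of_superset h1 ?_⟩
  intro x hx
  have h2 : f x = f d := by
    rw [Set.mem_preimage, Set.mem_singleton_iff] at hx hd
    rw [hx, hd]
  exact hf h2

theorem nm_prod {D E : Type u} (hD : NonMeasurable D) (hE : NonMeasurable E) :
    NonMeasurable (D × E) := by
  intro l hl
  obtain ⟨d, hd⟩ := hD (l.map Prod.fst) (cc_map hl _)
  obtain ⟨e, he⟩ := hE (l.map Prod.snd) (cc_map hl _)
  have h1 : Prod.fst ⁻¹' {d} ∈ l := hd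
  have h2 : Prod.snd ⁻¹' {e} ∈ l := he
  refine ⟨(d, e), Filter.mem_of_superset (Filter.inter_mem h1 h2) ?_⟩
  rintro ⟨x, y⟩ ⟨hx, hy⟩
  simp only [Set.mem_preimage, Set.mem_singleton_iff] at hx hy
  simp [hx, hy]

theorem nm_nat : NonMeasurable (ULift.{u} ℕ) := by
  intro l hl
  obtain ⟨n, hn⟩ := hl ULift.down
  refine ⟨⟨n⟩, Filter.mem_of_superset hn ?_⟩
  rintro ⟨x⟩ hx
  simp only [Set.mem_ofPred_eq] at hx
  simp [hx]

theorem nm_set {D : Type u} (hD : NonMeasurable D) : NonMeasurable (Set D) := by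
  classical
  intro l hl
  set B : Set D := {a | {s : Set D | a ∈ s} ∈ l} with hB
  refine ⟨B, ?_⟩
  by_contra hcon
  have hne : {s : Set D | s ≠ B} ∈ l := by
    have := Ultrafilter.compl_mem_iff_notMem.2 hcon
    exact this
  have hex : ∀ s : Set D, s ≠ B → ∃ a, ¬ (a ∈ s ↔ a ∈ B) := by
    intro s hs
    by_contra h
    push Not at h
    exact hs (Set.ext h)
  obtain ⟨s₀, hs₀⟩ := l.nonempty_of_mem hne
  obtain ⟨a₀, -⟩ := hex s₀ hs₀
  obtain ⟨a, ha⟩ := hD (l.map (fun s => if h : s ≠ B then (hex s h).choose else a₀)) (cc_map hl _)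
  have h1 : {s : Set D | (if h : s ≠ B then (hex s h).choose else a₀) = a} ∈ l := ha
  have h2 : {s : Set D | a ∈ s ↔ a ∈ B} ∈ l := by
    by_cases haB : a ∈ B
    · have h3 : {s : Set D | a ∈ s} ∈ l := haB
      refine Filter.mem_of_superset h3 ?_
      intro s hs
      exact ⟨fun _ => haB, fun _ => hs⟩
    · have h3 : {s : Set D | a ∈ s} ∉ l := haB
      have h4 := Ultrafilter.compl_mem_iff_notMem.2 h3
      refine Filter.mem_of_superset h4 ?_
      intro s hs
      exact ⟨fun h => absurd h hs, fun h => absurd h haB⟩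
  obtain ⟨s, ⟨hs1, hs2⟩, hs3⟩ := l.nonempty_of_mem (Filter.inter_mem (Filter.inter_mem h1 h2) hne)
  simp only [Set.mem_ofPred_eq] at hs1 hs2 hs3
  rw [dif_pos hs3] at hs1
  have h5 := (hex s hs3).choose_spec
  rw [hs1] at h5
  exact h5 hs2

theorem nm_fun {D : Type u} (hD : NonMeasurable D) : NonMeasurable (D → ℕ) := by
  refine nm_of_injective (E := Set (D × ULift.{u} ℕ)) (fun f => {q | f q.1 = q.2.down}) ?_
    (nm_set (nm_prod hD nm_nat))
  intro f g hfg
  funext x
  have h : ((x, ULift.up (f x)) : D × ULift.{u} ℕ) ∈ {q : D × ULift.{u} ℕ | g q.1 = q.2.down} := by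
    have h0 : ((x, ULift.up (f x)) : D × ULift.{u} ℕ) ∈ {q : D × ULift.{u} ℕ | f q.1 = q.2.down} := by
      simp
    have hfg' : {q : D × ULift.{u} ℕ | f q.1 = q.2.down} = {q | g q.1 = q.2.down} := hfg
    rwa [hfg'] at h0
  simpa using h.symm

/-- The key combinatorial fact. -/
theorem finite_inter {D : Type u} (hD : NonMeasurable D) (f : (D → ℕ) → ℕ) :
    ∃ C : Finset (D → ℕ), {x : D | ∀ p ∈ C, p x ≤ f p}.Finite := by
  by_contra hcon
  push Not at hcon
  have hne : (cofinite ⊓ ⨅ p : D → ℕ, 𝓟 {x | p x ≤ f p}).NeBot := by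
    rw [Filter.inf_neBot_iff]
    intro s hs t ht
    rw [Filter.mem_iInf] at ht
    obtain ⟨I, hI, V, hV, rfl⟩ := ht
    have h1 := hcon hI.toFinset
    have h2 : ({x : D | ∀ p ∈ hI.toFinset, p x ≤ f p} \ sᶜ).Nonempty :=
      (h1.sdiff hs).nonempty
    obtain ⟨x, hx1, hx2⟩ := h2
    refine ⟨x, not_not.1 hx2, ?_⟩
    rw [Set.mem_iInter]
    rintro ⟨p, hp⟩
    exact (Filter.mem_principal.1 (hV ⟨p, hp⟩)) (hx1 p (hI.mem_toFinset.2 hp))
  obtain ⟨l, hl⟩ := Ultrafilter.exists_le (cofinite ⊓ ⨅ p : D → ℕ, 𝓟 {x | p x ≤ f p})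
  have hcc : CountablyComplete l := by
    intro g
    have h1 : {x | g x ≤ f g} ∈ l := by
      apply hl
      apply Filter.mem_inf_of_right
      exact Filter.mem_iInf_of_mem g (Filter.mem_principal_self _)
    have h2 : {x | g x ≤ f g} = ⋃ n ∈ Set.Iic (f g), {x | g x = n} := by
      ext x
      simp
    rw [h2] at h1
    obtain ⟨n, -, hn⟩ := (Ultrafilter.finite_biUnion_mem_iff (Set.finite_Iic _)).1 h1
    exact ⟨n, hn⟩
  obtain ⟨d, hd⟩ := hD l hcc
  have h3 : ({d} : Set D)ᶜ ∈ l := by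
    apply hl
    apply Filter.mem_inf_of_left
    exact (Set.finite_singleton d).compl_mem_cofinite
  have h4 := l.nonempty_of_mem (Filter.inter_mem hd h3)
  simp at h4

/-! ### The space -/

/-- Indices of the pieces. -/
inductive Idx : Type
  | base : Idx
  | fn : Idx → Idx
  | wt : Idx → ℕ → Idx

/-- The pieces. -/
def Piece (D : Type u) : Idx → Type u
  | Idx.base => D
  | Idx.fn i => Piece D i → ℕ
  | Idx.wt i _ => Piece D i × (Piece D i → ℕ)

/-- The points. -/
def Pt (D : Type u) : Type u := Σ i : Idx, Piece D i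

variable {D : Type u}

/-- the point of a piece -/
def mk (i : Idx) (x : Piece D i) : Pt D := ⟨i, x⟩

theorem mk_inj {i j : Idx} {x : Piece D i} {y : Piece D j} (h : mk i x = mk j y) :
    i = j ∧ HEq x y := Sigma.mk.inj_iff.1 h

theorem mk_inj_same {i : Idx} {x y : Piece D i} (h : mk i x = mk i y) : x = y :=
  eq_of_heq (mk_inj h).2

/-- `Up k i y` is the set of all `z` such that the point `y` of the piece `i` is in the `k`-th
neighbourhood of `z`. -/
def Up (k : ℕ) : (i : Idx) → Piece D i → Set (Pt D)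
  | Idx.base, y => {mk Idx.base y}
  | Idx.fn i, y => {mk (Idx.fn i) y}
  | Idx.wt i m, y => {mk (Idx.wt i m) y} ∪
      {z | k ≤ m ∧ (z ∈ Up k i y.1 ∨ (z = mk (Idx.fn i) y.2 ∧ k < y.2 y.1))}

theorem self_mem (k : ℕ) (i : Idx) (y : Piece D i) : mk i y ∈ Up k i y := by
  cases i
  · exact rfl
  · exact rfl
  · exact Or.inl rfl

/-- the `k`-th neighbourhood -/
def U (k : ℕ) (z : Pt D) : Set (Pt D) := {y | z ∈ Up k y.1 y.2}

theorem mem_U_self (k : ℕ) (z : Pt D) : z ∈ U k z := self_mem k z.1 z.2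

theorem up_anti {k l : ℕ} (hkl : k ≤ l) (i : Idx) (y : Piece D i) : Up l i y ⊆ Up k i y := by
  induction i with
  | base => exact subset_rfl
  | fn i => exact subset_rfl
  | wt i m ih =>
    rintro z (hz | ⟨h1, h2⟩)
    · exact Or.inl hz
    · refine Or.inr ⟨hkl.trans h1, ?_⟩
      rcases h2 with h2 | ⟨h2, h3⟩
      · exact Or.inl (ih y.1 h2)
      · exact Or.inr ⟨h2, lt_of_le_of_lt hkl h3⟩

theorem U_anti {k l : ℕ} (hkl : k ≤ l) (z : Pt D) : U l z ⊆ U k z :=
  fun y hy => up_anti hkl y.1 y.2 hy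

theorem up_trans (k : ℕ) (i : Idx) (u : Piece D i) (y z : Pt D) (hy : y ∈ Up k i u)
    (hz : z ∈ Up k y.1 y.2) : z ∈ Up k i u := by
  induction i with
  | base =>
    rw [show y = mk Idx.base u from hy] at hz
    exact hz
  | fn i =>
    rw [show y = mk (Idx.fn i) u from hy] at hz
    exact hz
  | wt i m ih =>
    rcases hy with hy | ⟨h1, h2⟩
    · rw [show y = mk (Idx.wt i m) u from hy] at hz
      exact hz
    · refine Or.inr ⟨h1, ?_⟩
      rcases h2 with h2 | ⟨h2, h3⟩
      · exact Or.inl (ih u.1 h2)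
      · rw [h2] at hz
        exact Or.inr ⟨hz, h3⟩

theorem U_trans {k : ℕ} {y z : Pt D} (hy : y ∈ U k z) : U k y ⊆ U k z := by
  intro x hx
  exact up_trans k x.1 x.2 y z hx hy

/-- The topology. -/
instance topology (D : Type u) : TopologicalSpace (Pt D) where
  IsOpen O := ∀ z ∈ O, ∃ k, U k z ⊆ O
  isOpen_univ := fun _ _ => ⟨0, subset_univ _⟩
  isOpen_inter := by
    rintro s t hs ht z ⟨h1, h2⟩
    obtain ⟨k, hk⟩ := hs z h1
    obtain ⟨l, hl⟩ := ht z h2
    exact ⟨max k l, subset_inter ((U_anti (le_max_left _ _) z).trans hk)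
      ((U_anti (le_max_right _ _) z).trans hl)⟩
  isOpen_sUnion := by
    rintro S hS z ⟨s, hs, hz⟩
    obtain ⟨k, hk⟩ := hS s hs z hz
    exact ⟨k, hk.trans (subset_sUnion_of_mem hs)⟩

theorem isOpen_def (O : Set (Pt D)) : IsOpen O ↔ ∀ z ∈ O, ∃ k, U k z ⊆ O := Iff.rfl

theorem isOpen_U (k : ℕ) (z : Pt D) : IsOpen (U k z) := by
  rw [isOpen_def]
  intro y hy
  exact ⟨k, U_trans hy⟩

theorem mem_nhds_iff' (z : Pt D) (W : Set (Pt D)) : W ∈ 𝓝 z ↔ ∃ k, U k z ⊆ W := by
  constructor
  · intro h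
    obtain ⟨O, hO, hO2, hz⟩ := mem_nhds_iff.1 h
    obtain ⟨k, hk⟩ := (isOpen_def O).1 hO2 z hz
    exact ⟨k, hk.trans hO⟩
  · rintro ⟨k, hk⟩
    exact Filter.mem_of_superset ((isOpen_U k z).mem_nhds (mem_U_self k z)) hk

/-- the rank of a piece -/
def rk : Idx → ℕ
  | Idx.base => 0
  | Idx.fn _ => 0
  | Idx.wt _ m => m + 1

/-- the pieces are closed discrete -/
theorem eq_of_mem_up {k : ℕ} {i : Idx} (hk : rk i ≤ k) {y : Piece D i} {z : Pt D}
    (h : z ∈ Up k i y) : z = mk i y := by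
  cases i with
  | base => exact h
  | fn i => exact h
  | wt i m =>
    rcases h with h | ⟨h1, -⟩
    · exact h
    · simp only [rk] at hk
      omega

theorem disjoint_aux (z z' : Pt D) (hne : z ≠ z') (k : ℕ) (h1 : rk z.1 ≤ k) (h2 : rk z'.1 ≤ k)
    (h3 : ∀ (i : Idx) (p : Piece D i → ℕ), z = mk (Idx.fn i) p → rk i ≤ k ∧
      ∀ x : Piece D i, z' = mk i x → p x ≤ k)
    (h4 : ∀ (i : Idx) (p : Piece D i → ℕ), z' = mk (Idx.fn i) p → rk i ≤ k ∧
      ∀ x : Piece D i, z = mk i x → p x ≤ k) (i : Idx) (y : Piece D i)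
    (hz : z ∈ Up k i y) (hz' : z' ∈ Up k i y) : False := by
  induction i with
  | base => exact hne ((show z = mk Idx.base y from hz).trans (show z' = mk Idx.base y from hz').symm)
  | fn i =>
    exact hne ((show z = mk (Idx.fn i) y from hz).trans (show z' = mk (Idx.fn i) y from hz').symm)
  | wt i m ih =>
    have key : ∀ w w' : Pt D, w ≠ w' → rk w.1 ≤ k → rk w'.1 ≤ k → w ∈ Up k (Idx.wt i m) y →
        w' ∈ Up k (Idx.wt i m) y → w ≠ mk (Idx.wt i m) y := by
      intro w w' hww hw hw' hwy hwy' he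
      rcases hwy' with h | ⟨h, -⟩
      · exact hww (he.trans (show w' = mk (Idx.wt i m) y from h).symm)
      · rw [he] at hw
        simp only [mk, rk] at hw
        omega
    have hzn := key z z' hne h1 h2 hz hz'
    have hzn' := key z' z hne.symm h2 h1 hz' hz
    rcases hz with h | ⟨hm, hz⟩
    · exact hzn h
    rcases hz' with h | ⟨-, hz'⟩
    · exact hzn' h
    rcases hz with hz | ⟨hz, hp⟩
    · rcases hz' with hz' | ⟨hz', hp⟩
      · exact ih y.1 hz hz'
      · obtain ⟨h5, h6⟩ := h4 i y.2 hz'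
        have h7 := h6 y.1 (eq_of_mem_up h5 hz)
        omega
    · rcases hz' with hz' | ⟨hz', hp'⟩
      · obtain ⟨h5, h6⟩ := h3 i y.2 hz
        have h7 := h6 y.1 (eq_of_mem_up h5 hz')
        omega
      · exact hne (hz.trans hz'.symm)

theorem exists_bound (z z' : Pt D) : ∃ k₀ : ℕ, ∀ k, k₀ ≤ k →
    ∀ (i : Idx) (p : Piece D i → ℕ), z = mk (Idx.fn i) p → rk i ≤ k ∧
      ∀ x : Piece D i, z' = mk i x → p x ≤ k := by
  classical
  by_cases h : ∃ (i : Idx) (p : Piece D i → ℕ), z = mk (Idx.fn i) p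
  · obtain ⟨i, p, rfl⟩ := h
    by_cases h' : ∃ x : Piece D i, z' = mk i x
    · obtain ⟨x, rfl⟩ := h'
      refine ⟨max (rk i) (p x), ?_⟩
      intro k hk j q hq
      obtain ⟨h1, h2⟩ := mk_inj hq
      have h3 : i = j := by injection h1
      subst h3
      have h4 : p = q := eq_of_heq h2
      subst h4
      refine ⟨(le_max_left _ _).trans hk, ?_⟩
      intro x' hx'
      have h5 : x = x' := mk_inj_same hx'
      rw [← h5]
      exact (le_max_right _ _).trans hk
    · refine ⟨rk i, ?_⟩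
      intro k hk j q hq
      obtain ⟨h1, h2⟩ := mk_inj hq
      have h3 : i = j := by injection h1
      subst h3
      exact ⟨hk, fun x hx => absurd ⟨x, hx⟩ h'⟩
  · exact ⟨0, fun k _ i p hp => absurd ⟨i, p, hp⟩ h⟩

instance t2 : T2Space (Pt D) := by
  refine ⟨fun z z' hne => ?_⟩
  obtain ⟨a, ha⟩ := exists_bound z z'
  obtain ⟨b, hb⟩ := exists_bound z' z
  set k := max (max a b) (max (rk z.1) (rk z'.1)) with hk
  have e1 : a ≤ k := (le_max_left a b).trans (le_max_left _ _)
  have e2 : b ≤ k := (le_max_right a b).trans (le_max_left _ _)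
  have e3 : rk z.1 ≤ k := (le_max_left _ _).trans (le_max_right _ _)
  have e4 : rk z'.1 ≤ k := (le_max_right _ _).trans (le_max_right _ _)
  refine ⟨U k z, U k z', isOpen_U k z, isOpen_U k z', mem_U_self k z, mem_U_self k z', ?_⟩
  rw [Set.disjoint_left]
  intro y hy hy'
  exact disjoint_aux z z' hne k e3 e4 (ha k e1) (hb k e2) y.1 y.2 hy hy'

/-- `x` is in the closure of the `k`-th neighbourhood of `p` if `k < p x`. -/
theorem mem_closure_U (i : Idx) (x : Piece D i) (p : Piece D i → ℕ) (k : ℕ) (h : k < p x) :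
    mk i x ∈ closure (U k (mk (Idx.fn i) p)) := by
  rw [mem_closure_iff_nhds]
  intro W hW
  obtain ⟨j, hj⟩ := (mem_nhds_iff' _ _).1 hW
  refine ⟨mk (Idx.wt i (max j k)) (x, p), hj ?_, ?_⟩
  · exact Or.inr ⟨le_max_left _ _, Or.inl (self_mem j i x)⟩
  · exact Or.inr ⟨le_max_right _ _, Or.inr ⟨rfl, h⟩⟩

theorem nm_piece (hD : NonMeasurable D) (i : Idx) : NonMeasurable (Piece D i) := by
  induction i with
  | base => exact hD
  | fn i ih => exact nm_fun ih
  | wt i m ih => exact nm_prod ih (nm_fun ih)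

instance : Countable Idx := by
  let f : Idx → List ℕ := fun i => i.rec [] (fun _ l => 0 :: l) (fun _ m l => (m + 1) :: l)
  have hf : Function.Injective f := by
    intro i
    induction i with
    | base =>
      intro j hj
      cases j with
      | base => rfl
      | fn j => simp [f] at hj
      | wt j m => simp [f] at hj
    | fn i ih =>
      intro j hj
      cases j with
      | base => simp [f] at hj
      | fn j =>
        simp only [f, List.cons.injEq, true_and] at hj
        rw [ih hj]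
      | wt j m => simp [f] at hj
    | wt i m ih =>
      intro j hj
      cases j with
      | base => simp [f] at hj
      | fn j => simp [f] at hj
      | wt j m' =>
        simp only [f, List.cons.injEq, Nat.add_right_cancel_iff] at hj
        rw [ih hj.2, hj.1]
  exact hf.countable

/-- The space is almost Lindelof: every open cover has a countable subfamily whose members have
closures which cover the space. -/
theorem almostLindelof (hD : NonMeasurable D) (𝒰 : Set (Set (Pt D))) (ho : ∀ O ∈ 𝒰, IsOpen O)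
    (hc : ∀ z : Pt D, ∃ O ∈ 𝒰, z ∈ O) :
    ∃ 𝒱 : Set (Set (Pt D)), 𝒱 ⊆ 𝒰 ∧ 𝒱.Countable ∧ ∀ z : Pt D, ∃ O ∈ 𝒱, z ∈ closure O := by
  choose O hO hzO using hc
  have hf : ∀ z : Pt D, ∃ k, U k z ⊆ O z := fun z => (isOpen_def _).1 (ho _ (hO z)) z (hzO z)
  choose f hf using hf
  have hC : ∀ i : Idx, ∃ C : Finset (Piece D i → ℕ),
      {x : Piece D i | ∀ p ∈ C, p x ≤ f (mk (Idx.fn i) p)}.Finite := fun i =>
    finite_inter (nm_piece hD i) (fun p => f (mk (Idx.fn i) p))
  choose C hC using hC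
  refine ⟨(⋃ i : Idx, (fun p : Piece D i → ℕ => O (mk (Idx.fn i) p)) '' (C i : Set (Piece D i → ℕ))) ∪
    (⋃ i : Idx, (fun x : Piece D i => O (mk i x)) ''
      {x : Piece D i | ∀ p ∈ C i, p x ≤ f (mk (Idx.fn i) p)}), ?_, ?_, ?_⟩
  · rintro W (hW | hW)
    · obtain ⟨i, p, -, rfl⟩ := Set.mem_iUnion.1 hW
      exact hO _
    · obtain ⟨i, x, -, rfl⟩ := Set.mem_iUnion.1 hW
      exact hO _
  · apply Set.Countable.union
    · exact Set.countable_iUnion fun i => ((C i).finite_toSet.image _).countable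
    · exact Set.countable_iUnion fun i => ((hC i).image _).countable
  · rintro ⟨i, x⟩
    by_cases hx : ∀ p ∈ C i, p x ≤ f (mk (Idx.fn i) p)
    · refine ⟨O (mk i x), Or.inr (Set.mem_iUnion.2 ⟨i, x, hx, rfl⟩), subset_closure (hzO _)⟩
    · push Not at hx
      obtain ⟨p, hp, hpx⟩ := hx
      refine ⟨O (mk (Idx.fn i) p), Or.inl (Set.mem_iUnion.2 ⟨i, p, hp, rfl⟩), ?_⟩
      exact closure_mono (hf _) (mem_closure_U i x p _ hpx)

theorem pwProp (hD : NonMeasurable D) : PwProp (Pt D) ℵ₀ := by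
  intro I 𝒰 ho hc
  obtain ⟨𝒱, h1, h2, h3⟩ := almostLindelof hD (⋃ i, 𝒰 i)
    (fun O hO => by
      obtain ⟨i, hi⟩ := Set.mem_iUnion.1 hO
      exact ho i O hi)
    (fun z => by
      have hz : z ∈ ⋃ i, ⋃₀ 𝒰 i := by rw [hc]; exact mem_univ z
      obtain ⟨i, O, hO, hzO⟩ := Set.mem_iUnion.1 hz
      exact ⟨O, Set.mem_iUnion.2 ⟨i, hO⟩, hzO⟩)
  refine ⟨fun i => 𝒱 ∩ 𝒰 i, fun i => inter_subset_right, fun i => ?_, ?_⟩
  · exact Cardinal.le_aleph0_iff_set_countable.2 (h2.mono inter_subset_left)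
  · rw [Set.eq_univ_iff_forall]
    intro z
    obtain ⟨O, hO, hz⟩ := h3 z
    obtain ⟨i, hi⟩ := Set.mem_iUnion.1 (h1 hO)
    refine Set.mem_iUnion.2 ⟨i, closure_mono ?_ hz⟩
    exact subset_sUnion_of_mem ⟨hO, hi⟩

theorem pwL_eq (hD : NonMeasurable D) : pwL (Pt D) = ℵ₀ := by
  apply le_antisymm
  · exact csInf_le' ⟨le_rfl, pwProp hD⟩
  · exact le_csInf ⟨ℵ₀, le_rfl, pwProp hD⟩ fun κ hκ => hκ.1

theorem chr_eq : chr (Pt D) = ℵ₀ := by
  apply max_eq_left
  apply ciSup_le'
  intro z
  have h : IsLocalBase z (Set.range fun k => U k z) := by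
    refine ⟨?_, ?_⟩
    · rintro _ ⟨k, rfl⟩
      exact ⟨isOpen_U k z, mem_U_self k z⟩
    · intro W hW
      obtain ⟨k, hk⟩ := (mem_nhds_iff' _ _).1 hW
      exact ⟨_, ⟨k, rfl⟩, hk⟩
  have h2 : #(Set.range fun k => U k z) ∈ {κ | ∃ B : Set (Set (Pt D)), IsLocalBase z B ∧ #B = κ} :=
    ⟨_, h, rfl⟩
  refine (csInf_le' h2).trans ?_
  exact Cardinal.le_aleph0_iff_set_countable.2 (Set.countable_range _)

theorem card_le : #D ≤ #(Pt D) :=
  Cardinal.mk_le_of_injective (f := fun d : D => (mk Idx.base d : Pt D)) (by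
    intro d e hde
    exact mk_inj_same (i := Idx.base) hde)

/-- **Theorem.** (1) For every set `D` on which every countably complete ultrafilter is principal
there is a Hausdorff space `X` with `pwL(X) = χ(X) = ℵ₀` and `|X| ≥ |D|`.
(2) There is a Hausdorff space `X` with `|X| > 2 ^ (pwL(X) · χ(X))`. -/
theorem result :
    (∀ D : Type u, NonMeasurable D → ∃ (X : Type u) (_ : TopologicalSpace X), T2Space X ∧
      pwL X = ℵ₀ ∧ chr X = ℵ₀ ∧ #D ≤ #X) ∧
    (∃ (X : Type u) (_ : TopologicalSpace X), T2Space X ∧ 2 ^ (pwL X * chr X) < #X) := by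
  refine ⟨fun D hD => ⟨Pt D, topology D, t2, pwL_eq hD, chr_eq, card_le⟩, ?_⟩
  have hD : NonMeasurable (Set (Set (ULift.{u} ℕ))) := nm_set (nm_set nm_nat)
  refine ⟨Pt (Set (Set (ULift.{u} ℕ))), topology _, t2, ?_⟩
  rw [pwL_eq hD, chr_eq, Cardinal.aleph0_mul_aleph0]
  refine lt_of_lt_of_le ?_ card_le
  rw [Cardinal.mk_set, Cardinal.mk_set]
  simpa using Cardinal.cantor (2 ^ (ℵ₀ : Cardinal.{u}))

end Pool.Agent.Results.MP_8b81fd_gt.HausdorffCounterexample
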